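import Mathlib

open Finset

namespace Pool.Agent.Results.MP_f8e877_nt.Fails

def T (n : ℕ) (b c : ℤ) : ℤ :=
  ∑ j ∈ range (n / 2 + 1), (n.choose (2 * j) : ℤ) * ((2 * j).choose j : ℤ) * b ^ (n - 2 * j) * c ^ j

def Cg (p m : ℕ) (u v : ℚ) : Prop := (p : ℤ) ^ m ∣ (u - v).num

def A (k : ℕ) : ℚ := ((2 * k).choose k : ℚ) * ((3 * k).choose k : ℚ)
def B (k : ℕ) : ℚ := ((2 * k).choose k : ℚ) ^ 2
def u (k : ℕ) : ℚ := (T k 18 1 : ℚ) / 512 ^ k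
def v (k : ℕ) : ℚ := (T (3 * k) 6 1 : ℚ) / (-512) ^ k
def S (p : ℕ) : ℚ := ∑ k ∈ range p, A k * u k
def S' (p : ℕ) : ℚ := ∑ k ∈ range p, A k * v k

theorem result : ¬ ∀ p : ℕ, p.Prime → 7 < p →
    (Cg p 2 (S p) (jacobiSym 10 p * S' p) ∧
      (∀ x y : ℤ, jacobiSym p 5 = 1 → jacobiSym p 7 = 1 → 4 * (p : ℤ) = x ^ 2 + 35 * y ^ 2 →
        Cg p 2 (S p) (x ^ 2 - 2 * p)) ∧
      (∀ x y : ℤ, jacobiSym p 5 = -1 → jacobiSym p 7 = -1 → 4 * (p : ℤ) = 5 * x ^ 2 + 7 * y ^ 2 →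
        Cg p 2 (S p) (2 * p - 5 * x ^ 2)) ∧
      (jacobiSym p 35 = -1 → Cg p 2 (S p) 0)) ∧
    Cg p 2 (∑ k ∈ range p, (35 * k + 9) * A k * u k) (9 / 2 * p * (7 - 5 * jacobiSym p 5)) ∧
    Cg p 2 (∑ k ∈ range p, (35 * k + 9) * B k * v k)
      (9 / 32 * p * jacobiSym 2 p * (25 + 7 * jacobiSym p 7)) := by
  intro h
  have h1 := (h 11 (by norm_num) (by norm_num)).2.2
  have hj : jacobiSym 2 11 = -1 := by norm_num
  have hk : jacobiSym ((11 : ℕ) : ℤ) 7 = 1 := by norm_num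
  rw [hj, hk] at h1
  revert h1
  simp only [Cg, B, v, T, Nat.choose_eq_descFactorial_div_factorial]
  decide +kernel

end Pool.Agent.Results.MP_f8e877_nt.Fails
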